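import Mathlib

/-!
# The `t`-adic Littlewood conjecture fails over every field with a nonsquare

Let `c` be a nonsquare of the field `F` and let `Θ = Σ_{n ≥ 1} a_n t^{-n}` be the solution of
`(t^2 - c) Θ(t) = t^2 Θ(t^2) + t`, that is `a_{2m+1} = c^m`, `a_{2m+2} = c a_{2m} + a_{m+1}`,
`a_0 = 0`.  We show `|N| |N|_t |⟨N Θ⟩| ≥ q^{-2}` for every nonzero polynomial `N`.

Everything is written with the linear functional `Phi : F[X] → F`, `X^n ↦ a_n`.
-/

set_option autoImplicit false

namespace Pool.Agent.TH411.TLC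

open Polynomial Finset

variable {F : Type*} [Field F]

/-- the functional `X^n ↦ a n`. -/
noncomputable def Phi (a : ℕ → F) : F[X] →ₗ[F] F :=
  Polynomial.lsum (fun i => (a i) • (LinearMap.id : F →ₗ[F] F))

theorem Phi_monomial (a : ℕ → F) (n : ℕ) (x : F) : Phi a (monomial n x) = x * a n := by
  simp [Phi, Polynomial.lsum_apply, Polynomial.sum_monomial_index, mul_comm]

theorem Phi_X_pow (a : ℕ → F) (n : ℕ) : Phi a (X ^ n) = a n := by
  rw [← monomial_one_right_eq_X_pow, Phi_monomial, one_mul]

theorem Phi_mul_X_pow (a : ℕ → F) (N : F[X]) (j : ℕ) :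
    Phi a (N * X ^ j) = ∑ i ∈ range (N.natDegree + 1), N.coeff i * a (i + j) := by
  conv_lhs => rw [N.as_sum_range' (N.natDegree + 1) (Nat.lt_succ_self _)]
  rw [Finset.sum_mul, map_sum]
  refine Finset.sum_congr rfl fun i _ => ?_
  rw [monomial_mul_X_pow, Phi_monomial]

/-- `contract 2` as a linear map. -/
noncomputable def E2 : F[X] →ₗ[F] F[X] where
  toFun := contract 2
  map_add' p q := by
    ext n; simp [coeff_contract]
  map_smul' x p := by
    ext n; simp [coeff_contract]

theorem E2_apply (p : F[X]) : E2 p = contract 2 p := rfl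

theorem contract_two_X_mul_expand (p : F[X]) : contract 2 (X * expand F 2 p) = 0 := by
  ext n
  rw [coeff_contract two_ne_zero, coeff_zero]
  rcases Nat.eq_zero_or_pos n with h | h
  · subst h; simp
  · obtain ⟨m, hm⟩ : ∃ m, n * 2 = m + 1 := ⟨n * 2 - 1, by omega⟩
    rw [hm, coeff_X_mul, coeff_expand two_pos, if_neg]
    omega

theorem contract_two_expand_mul (p q : F[X]) :
    contract 2 (expand F 2 p * q) = p * contract 2 q := by
  have key : E2.comp ((LinearMap.mulLeft F (expand F 2 p))) =
      (LinearMap.mulLeft F p).comp (E2 (F := F)) := by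
    refine Polynomial.lhom_ext' fun n => LinearMap.ext_ring ?_
    simp only [LinearMap.comp_apply, LinearMap.mulLeft_apply, E2_apply]
    rcases Nat.even_or_odd' n with ⟨m, hm | hm⟩
    · subst hm
      rw [monomial_one_right_eq_X_pow, pow_mul, ← expand_X (R := F) 2, ← map_pow, ← map_mul,
        contract_expand _ two_ne_zero, contract_expand _ two_ne_zero]
    · subst hm
      have e1 : expand F 2 p * (monomial (2 * m + 1)) (1 : F) = X * expand F 2 (p * X ^ m) := by
        rw [monomial_one_right_eq_X_pow, map_mul, map_pow, expand_X]; ring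
      have e2 : (monomial (2 * m + 1)) (1 : F) = X * expand F 2 (X ^ m) := by
        rw [monomial_one_right_eq_X_pow, map_pow, expand_X]; ring
      rw [e1, e2, contract_two_X_mul_expand, contract_two_X_mul_expand, mul_zero]
  have := congrArg (fun f => f q) key
  simpa [E2_apply] using this

theorem split (M : F[X]) : M = expand F 2 (contract 2 M) + X * expand F 2 (contract 2 M.divX) := by
  ext n
  rw [coeff_add]
  rcases Nat.eq_zero_or_pos n with h | h
  · subst h
    rw [mul_coeff_zero, coeff_X_zero, zero_mul, add_zero, coeff_expand two_pos,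
      if_pos (dvd_zero 2), Nat.zero_div, coeff_contract two_ne_zero, zero_mul]
  · obtain ⟨m, rfl⟩ : ∃ m, n = m + 1 := ⟨n - 1, by omega⟩
    rw [coeff_X_mul, coeff_expand two_pos, coeff_expand two_pos, coeff_contract two_ne_zero,
      coeff_contract two_ne_zero, coeff_divX]
    rcases Nat.even_or_odd' m with ⟨i, hi | hi⟩
    · subst hi
      rw [if_neg (by omega), if_pos (by omega), zero_add]
      congr 1; omega
    · subst hi
      rw [if_pos (by omega), if_neg (by omega), add_zero]
      congr 1; omega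

section main

variable {c : F} {a : ℕ → F}

theorem Phi_odd (h1 : ∀ m, a (2 * m + 1) = c ^ m) (R : F[X]) :
    Phi a (X * expand F 2 R) = R.eval c := by
  have key : (Phi a).comp ((LinearMap.mulLeft F (X : F[X])).comp (expand F 2).toLinearMap) =
      (Polynomial.leval c) := by
    refine Polynomial.lhom_ext' fun n => LinearMap.ext_ring ?_
    simp only [LinearMap.comp_apply, LinearMap.mulLeft_apply, AlgHom.toLinearMap_apply]
    rw [monomial_one_right_eq_X_pow, map_pow, expand_X, ← pow_mul, ← pow_succ', Phi_X_pow, h1]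
    simp [Polynomial.leval]
  have := congrArg (fun f => f R) key
  simpa [Polynomial.leval] using this

theorem Phi_sq (h1 : ∀ m, a (2 * m + 1) = c ^ m) (h2 : ∀ m, a (2 * m + 2) = c * a (2 * m) + a (m + 1))
    (Q : F[X]) : Phi a ((X ^ 2 - C c) * Q) = Phi a (X * contract 2 Q) := by
  have key : (Phi a).comp (LinearMap.mulLeft F (X ^ 2 - C c : F[X])) =
      (Phi a).comp ((LinearMap.mulLeft F (X : F[X])).comp E2) := by
    refine Polynomial.lhom_ext' fun n => LinearMap.ext_ring ?_
    simp only [LinearMap.comp_apply, LinearMap.mulLeft_apply, E2_apply]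
    have e0 : (X ^ 2 - C c) * (monomial n (1 : F)) = X ^ (n + 2) - c • X ^ n := by
      rw [monomial_one_right_eq_X_pow, sub_mul, smul_eq_C_mul]; ring
    rw [e0, map_sub, map_smul, Phi_X_pow, Phi_X_pow, smul_eq_mul]
    rcases Nat.even_or_odd' n with ⟨m, hm | hm⟩
    · subst hm
      rw [monomial_one_right_eq_X_pow, pow_mul, ← expand_X (R := F) 2, ← map_pow,
        contract_expand _ two_ne_zero, ← pow_succ', Phi_X_pow, h2]
      ring
    · subst hm
      have e2 : (monomial (2 * m + 1)) (1 : F) = X * expand F 2 (X ^ m) := by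
        rw [monomial_one_right_eq_X_pow, map_pow, expand_X]; ring
      rw [e2, contract_two_X_mul_expand, mul_zero, map_zero,
        show 2 * m + 1 + 2 = 2 * (m + 1) + 1 by ring, h1, h1]
      ring
  have := congrArg (fun f => f Q) key
  simpa [E2_apply] using this

theorem descent (hc : ¬ IsSquare c) (h1 : ∀ m, a (2 * m + 1) = c ^ m)
    (h2 : ∀ m, a (2 * m + 2) = c * a (2 * m) + a (m + 1)) :
    ∀ (n : ℕ) (M : F[X]) (k : ℕ), M.natDegree = n → M.coeff 0 ≠ 0 →
      (∀ Q : F[X], Q.natDegree ≤ M.natDegree + 1 → Phi a (X ^ (k + 1) * M * Q) = 0) → False := by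
  have hc0 : c ≠ 0 := fun h => hc ⟨0, by rw [h]; ring⟩
  intro n
  induction n using Nat.strong_induction_on with
  | _ n ih =>
  intro M k hn hM0 hM
  obtain ⟨A, hA⟩ : ∃ A, A = contract 2 M := ⟨_, rfl⟩
  obtain ⟨B, hB⟩ : ∃ B, B = contract 2 M.divX := ⟨_, rfl⟩
  have hs : M = expand F 2 A + X * expand F 2 B := by rw [hA, hB]; exact split M
  have hcomp : M.comp (-X) = expand F 2 A - X * expand F 2 B := by
    have e1 : ∀ p : F[X], (expand F 2 p).comp (-X) = expand F 2 p := by
      intro p
      rw [expand_eq_comp_X_pow, comp_assoc]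
      congr 1
      simp
    rw [hs, add_comp, mul_comp, X_comp, e1, e1]; ring
  have hdeg : (M.comp (-X)).natDegree ≤ M.natDegree := by
    rw [natDegree_comp, natDegree_neg, natDegree_X, mul_one]
  have hnorm : M * M.comp (-X) = expand F 2 (A ^ 2 - X * B ^ 2) := by
    rw [hcomp]
    conv_lhs => rw [hs]
    rw [map_sub, map_mul, map_pow, map_pow, expand_X]; ring
  obtain ⟨j, hj⟩ := Nat.even_or_odd' k
  -- the norm vanishes at `c`
  have hν : (A ^ 2 - X * B ^ 2).eval c = 0 := by
    rcases hj with hj | hj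
    · have h3 := hM (M.comp (-X)) (by omega)
      have e1 : X ^ (k + 1) * M * M.comp (-X) = X * expand F 2 (X ^ j * (A ^ 2 - X * B ^ 2)) := by
        rw [mul_assoc, hnorm, map_mul, map_pow, expand_X, hj]; ring
      rw [e1, Phi_odd h1, eval_mul, eval_pow, eval_X] at h3
      exact (mul_eq_zero.1 h3).resolve_left (pow_ne_zero _ hc0)
    · have h3 := hM (X * M.comp (-X)) (by
        refine natDegree_mul_le.trans ?_
        rw [natDegree_X]; omega)
      have e1 : X ^ (k + 1) * M * (X * M.comp (-X)) =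
          X * expand F 2 (X ^ (j + 1) * (A ^ 2 - X * B ^ 2)) := by
        have : X ^ (k + 1) * M * (X * M.comp (-X)) = X ^ (k + 2) * (M * M.comp (-X)) := by ring
        rw [this, hnorm, map_mul, map_pow, expand_X, hj]; ring
      rw [e1, Phi_odd h1, eval_mul, eval_pow, eval_X] at h3
      exact (mul_eq_zero.1 h3).resolve_left (pow_ne_zero _ hc0)
  simp only [eval_sub, eval_pow, eval_mul, eval_X] at hν
  have hBc : B.eval c = 0 := by
    by_contra hne
    refine hc ⟨A.eval c / B.eval c, ?_⟩
    field_simp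
    linear_combination -hν
  have hAc : A.eval c = 0 := by
    rw [hBc] at hν
    have : A.eval c ^ 2 = 0 := by linear_combination hν
    exact pow_eq_zero_iff two_ne_zero |>.1 this
  obtain ⟨A', hA'⟩ := dvd_iff_isRoot.2 hAc
  obtain ⟨B', hB'⟩ := dvd_iff_isRoot.2 hBc
  have hA0 : A'.coeff 0 ≠ 0 := by
    intro h0
    apply hM0
    have : M.coeff 0 = A.coeff 0 := by
      rw [hA, coeff_contract two_ne_zero, zero_mul]
    rw [this, hA', mul_coeff_zero, h0, mul_zero]
  have hAne : A' ≠ 0 := fun h0 => hA0 (by rw [h0, coeff_zero])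
  have hdA : 2 * A.natDegree ≤ M.natDegree := by
    have hle : (expand F 2 A).natDegree ≤ M.natDegree := by
      rw [natDegree_le_iff_coeff_eq_zero]
      intro i hi
      rw [coeff_expand two_pos]
      split_ifs with hd
      · rw [hA, coeff_contract two_ne_zero, Nat.div_mul_cancel hd]
        exact coeff_eq_zero_of_natDegree_lt hi
      · rfl
    rw [natDegree_expand] at hle
    omega
  have hdA' : 2 * A'.natDegree + 2 ≤ M.natDegree := by
    have : A.natDegree = A'.natDegree + 1 := by
      rw [hA', natDegree_mul (X_sub_C_ne_zero c) hAne, natDegree_X_sub_C]; ring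
    omega
  have hMf : M = (X ^ 2 - C c) * (expand F 2 A' + X * expand F 2 B') := by
    conv_lhs => rw [hs]
    rw [hA', hB', map_mul, map_mul, map_sub, expand_X, expand_C]; ring
  refine ih A'.natDegree (by omega) A' (j + 1) rfl hA0 ?_
  intro Q1 hQ1
  have hcon : contract 2 (X ^ (2 * (j + 1)) * (expand F 2 A' + X * expand F 2 B') *
      expand F 2 Q1) = X ^ (j + 1) * A' * Q1 := by
    have e1 : X ^ (2 * (j + 1)) * (expand F 2 A' + X * expand F 2 B') * expand F 2 Q1 =
        expand F 2 (X ^ (j + 1) * A' * Q1) + X * expand F 2 (X ^ (j + 1) * B' * Q1) := by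
      simp only [map_mul, map_pow, expand_X]; ring
    rw [e1]
    have := (E2 (F := F)).map_add (expand F 2 (X ^ (j + 1) * A' * Q1))
      (X * expand F 2 (X ^ (j + 1) * B' * Q1))
    simp only [E2_apply] at this
    rw [this, contract_expand _ two_ne_zero, contract_two_X_mul_expand, add_zero]
  have hval : Phi a ((X ^ 2 - C c) * (X ^ (2 * (j + 1)) *
      (expand F 2 A' + X * expand F 2 B') * expand F 2 Q1)) = Phi a (X ^ (j + 1 + 1) * A' * Q1) := by
    rw [Phi_sq h1 h2, hcon]
    congr 1; ring
  rw [← hval]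
  rcases hj with hj | hj
  · have h3 := hM (X * expand F 2 Q1) (by
      refine natDegree_mul_le.trans ?_
      rw [natDegree_X, natDegree_expand]; omega)
    rw [← h3]
    congr 1
    conv_rhs => rw [hMf]
    rw [hj]; ring
  · have h3 := hM (expand F 2 Q1) (by rw [natDegree_expand]; omega)
    rw [← h3]
    congr 1
    conv_rhs => rw [hMf]
    rw [hj]; ring

/-- the bound `|N| |N|_t |⟨N Θ⟩| ≥ q^{-2}`. -/
theorem bound (hc : ¬ IsSquare c) (h1 : ∀ m, a (2 * m + 1) = c ^ m)
    (h2 : ∀ m, a (2 * m + 2) = c * a (2 * m) + a (m + 1)) (N : F[X]) (hN : N ≠ 0) :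
    ∃ j, 1 ≤ j ∧ j < N.natDegree - N.natTrailingDegree + 3 ∧
      ∑ i ∈ range (N.natDegree + 1), N.coeff i * a (i + j) ≠ 0 := by
  by_contra hno
  push Not at hno
  obtain ⟨v, hv⟩ : ∃ v, v = N.natTrailingDegree := ⟨_, rfl⟩
  rw [← hv] at hno
  obtain ⟨M, hM⟩ : ∃ M, N = X ^ v * M :=
    (X_pow_dvd_iff.2 fun d hd => coeff_eq_zero_of_lt_natTrailingDegree (hv ▸ hd))
  have hMne : M ≠ 0 := fun h => hN (by rw [hM, h, mul_zero])
  have hM0 : M.coeff 0 ≠ 0 := by
    have h3 : N.coeff v ≠ 0 := by
      rw [hv, ← trailingCoeff]; exact trailingCoeff_nonzero_iff_nonzero.2 hN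
    intro h0
    apply h3
    rw [hM, coeff_X_pow_mul', if_pos le_rfl, Nat.sub_self, h0]
  have hdeg : N.natDegree - v = M.natDegree := by
    have : N.natDegree = v + M.natDegree := by
      conv_lhs => rw [hM]
      rw [natDegree_mul (pow_ne_zero _ X_ne_zero) hMne, natDegree_X_pow]
    omega
  refine descent hc h1 h2 M.natDegree M v rfl hM0 ?_
  intro Q hQ
  have hQ' : Q = ∑ i ∈ range (M.natDegree + 2), Q.coeff i • X ^ i := by
    conv_lhs => rw [Q.as_sum_range' (M.natDegree + 2) (by omega)]
    refine Finset.sum_congr rfl fun i _ => ?_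
    rw [smul_eq_C_mul, C_mul_X_pow_eq_monomial]
  rw [hQ', Finset.mul_sum, map_sum]
  refine Finset.sum_eq_zero fun i hi => ?_
  rw [Finset.mem_range] at hi
  rw [mul_smul_comm, map_smul]
  have h3 := hno (i + 1) (by omega) (by omega)
  rw [← Phi_mul_X_pow] at h3
  have e1 : X ^ (v + 1) * M * X ^ i = N * X ^ (i + 1) := by
    conv_rhs => rw [hM]
    ring
  rw [e1, h3, smul_zero]

end main

/-- the sequence. -/
noncomputable def seq (c : F) : ℕ → F
  | 0 => 0
  | n + 1 => if n % 2 = 0 then c ^ (n / 2) else c * seq c (n - 1) + seq c ((n + 1) / 2)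
decreasing_by all_goals omega

theorem exists_seq (c : F) : ∃ a : ℕ → F, a 0 = 0 ∧ (∀ m, a (2 * m + 1) = c ^ m) ∧
    (∀ m, a (2 * m + 2) = c * a (2 * m) + a (m + 1)) := by
  refine ⟨seq c, ?_, ?_, ?_⟩
  · rw [seq]
  · intro m
    rw [seq, if_pos (by omega)]
    congr 1; omega
  · intro m
    rw [show 2 * m + 2 = (2 * m + 1) + 1 by ring, seq, if_neg (by omega)]
    have e1 : 2 * m + 1 - 1 = 2 * m := by omega
    have e2 : (2 * m + 1 + 1) / 2 = m + 1 := by omega
    rw [e1, e2]

end Pool.Agent.TH411.TLC
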